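import Pool.Agent.Q34.CE.Rel

/-! Exchange for degree vectors of sums of edges. -/

set_option autoImplicit false
open Finset

namespace Q34.CE

variable {n : ℕ}

/-- `x` is a sum of `s` edge vectors -/
inductive PM (G : SimpleGraph (Fin n)) : ℕ → Z n → Prop
  | zero : PM G 0 0
  | add {s : ℕ} {x : Z n} {a b : Fin n} : PM G s x → G.Adj a b → PM G (s + 1) (x + ee a + ee b)

variable {G : SimpleGraph (Fin n)}

theorem PM.nonneg {s : ℕ} {x : Z n} (h : PM G s x) (j : Fin n) : 0 ≤ x j := by
  induction h with
  | zero => exact le_rfl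
  | @add s x a b _ _ ih =>
    have h1 := ee_nonneg a j
    have h2 := ee_nonneg b j
    show 0 ≤ x j + ee a j + ee b j
    omega

theorem PM.sum {s : ℕ} {x : Z n} (h : PM G s x) : ∑ j, x j = 2 * s := by
  induction h with
  | zero => simp
  | @add s x a b _ _ ih =>
    have : ∑ j, (x + ee a + ee b) j = ∑ j, x j + ∑ j, ee a j + ∑ j, ee b j := by
      rw [← sum_add_distrib, ← sum_add_distrib]; rfl
    rw [this, ih, sum_ee, sum_ee]
    push_cast
    ring

theorem PM.size {s t : ℕ} {x : Z n} (h : PM G s x) (h' : PM G t x) : s = t := by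
  have h1 := h.sum
  have h2 := h'.sum
  omega

theorem PM.of_eq {s : ℕ} {x y : Z n} (h : PM G s x) (hxy : x = y) : PM G s y := hxy ▸ h

theorem PM.edge {s : ℕ} {x y : Z n} {a b : Fin n} (h : PM G s x) (hab : G.Adj a b)
    (hy : y = x + ee a + ee b) : PM G (s + 1) y := hy ▸ PM.add h hab

theorem PM.take {s : ℕ} {x : Z n} (h : PM G s x) (j : Fin n) (hj : 1 ≤ x j) :
    ∃ s' v, s = s' + 1 ∧ G.Adj j v ∧ PM G s' (x - ee j - ee v) := by
  induction h with
  | zero => exact absurd (show (1 : ℤ) ≤ 0 from hj) (by decide)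
  | @add s x a b hx hab ih =>
    by_cases h1 : j = a
    · subst h1
      exact ⟨s, b, rfl, hab, hx.of_eq (by abel)⟩
    by_cases h2 : j = b
    · subst h2
      exact ⟨s, a, rfl, hab.symm, hx.of_eq (by abel)⟩
    have h3 : 1 ≤ x j := by
      have : 1 ≤ x j + ee a j + ee b j := hj
      rwa [ee_ne h1, ee_ne h2, add_zero, add_zero] at this
    obtain ⟨s', v, rfl, hv, hx'⟩ := ih h3
    exact ⟨s' + 1, v, rfl, hv, hx'.edge hab (by abel)⟩

/-- **strong exchange** -/
theorem exch (N : ℕ) : ∀ (s t : ℕ) (x y : Z n), s + t ≤ N → PM G s x → PM G t y →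
    ∀ j, y j < x j →
    (∃ k, x k < y k ∧ PM G s (x - ee j + ee k) ∧ PM G t (y + ee j - ee k)) ∨
    (∃ k s', s = s' + 1 ∧ y k < x k - ee j k ∧ PM G s' (x - ee j - ee k) ∧
      PM G (t + 1) (y + ee j + ee k)) := by
  induction N with
  | zero =>
    intro s t x y hst hx hy j hj
    have h1 := hy.nonneg j
    obtain ⟨s', v, hs, -⟩ := hx.take j (by omega)
    omega
  | succ N ih =>
    intro s t x y hst hx hy j hj
    have h1 := hy.nonneg j
    obtain ⟨s', v, rfl, hjv, hx'⟩ := hx.take j (by omega)
    have hne : v ≠ j := hjv.ne'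
    by_cases hv : y v < x v
    · exact Or.inr ⟨v, s', rfl, by rw [ee_ne hne]; omega, hx', hy.edge hjv rfl⟩
    · have h2 : (x - ee j - ee v) v < y v := by
        show x v - ee j v - ee v v < y v
        rw [ee_ne hne, ee_self]
        omega
      rcases ih t s' y (x - ee j - ee v) (by omega) hy hx' v h2 with
        ⟨k, hk, hyk, hxk⟩ | ⟨k, t', rfl, hk, hyk, hxk⟩
      · -- second kind
        refine Or.inr ⟨k, s', rfl, ?_, hxk.of_eq (by abel), hyk.edge hjv (by abel)⟩
        have h3 : y k < x k - ee j k - ee v k := hk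
        have h4 := ee_nonneg v k
        omega
      · refine Or.inl ⟨k, ?_, hxk.of_eq (by abel), hyk.edge hjv (by abel)⟩
        have h3 : x k - ee j k - ee v k < y k - ee v k := hk
        by_cases h4 : k = j
        · subst h4
          rw [ee_self] at h3
          omega
        · rw [ee_ne h4] at h3
          omega

theorem exch' {s t : ℕ} {x y : Z n} (hx : PM G s x) (hy : PM G t y) (j : Fin n) (hj : y j < x j) :
    (∃ k, x k < y k ∧ PM G s (x - ee j + ee k) ∧ PM G t (y + ee j - ee k)) ∨
    (∃ k s', s = s' + 1 ∧ y k < x k - ee j k ∧ PM G s' (x - ee j - ee k) ∧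
      PM G (t + 1) (y + ee j + ee k)) := exch _ s t x y le_rfl hx hy j hj

/-- removing an edge towards a smaller sum -/
theorem remove {s t : ℕ} {x : Z n} (hx : PM G s x) (hst : t < s) (N : ℕ) : ∀ y : Z n,
    PM G t y → ∑ j, max (x j - y j) 0 ≤ N →
    ∃ j k s', s = s' + 1 ∧ y j < x j ∧ y k < x k - ee j k ∧ PM G s' (x - ee j - ee k) := by
  induction N with
  | zero =>
    intro y hy hN
    exfalso
    have h1 := hx.sum
    have h2 := hy.sum
    have h3 : ∑ j, (x j - y j) ≤ ∑ j, max (x j - y j) 0 := sum_le_sum fun j _ => le_max_left _ _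
    rw [sum_sub_distrib] at h3
    push_cast at hN
    omega
  | succ N ih =>
    intro y hy hN
    have h1 := hx.sum
    have h2 := hy.sum
    obtain ⟨j, -, hj⟩ : ∃ j ∈ univ, y j < x j := by
      apply exists_lt_of_sum_lt
      omega
    rcases exch' hx hy j hj with ⟨k, hk, -, hyk⟩ | ⟨k, s', hs, hk, hxk, -⟩
    · have hkj : k ≠ j := by rintro rfl; omega
      obtain ⟨p, q, s', hs, hp, hq, hpq⟩ := ih _ hyk (by
        have h3 : ∑ i, max (x i - (y + ee j - ee k) i) 0 < ∑ i, max (x i - y i) 0 := by
          apply sum_lt_sum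
          · intro i _
            show max (x i - (y i + ee j i - ee k i)) 0 ≤ max (x i - y i) 0
            by_cases h4 : i = k
            · subst h4
              rw [ee_ne hkj, ee_self]
              omega
            · rw [ee_ne h4]
              have := ee_nonneg j i
              omega
          · refine ⟨j, mem_univ _, ?_⟩
            show max (x j - (y j + ee j j - ee k j)) 0 < max (x j - y j) 0
            rw [ee_self, ee_ne hkj.symm]
            omega
        push_cast at hN
        omega)
      refine ⟨p, q, s', hs, ?_, ?_, hpq⟩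
      · have h3 : y p + ee j p - ee k p < x p := hp
        have h5 := ee_nonneg j p
        by_cases h4 : p = k
        · subst h4
          rw [ee_self, ee_ne hkj] at h3
          omega
        · rw [ee_ne h4] at h3
          omega
      · have h3 : y q + ee j q - ee k q < x q - ee p q := hq
        have h5 := ee_nonneg j q
        have h6 := ee_nonneg p q
        by_cases h4 : q = k
        · subst h4
          rw [ee_self, ee_ne hkj] at h3
          omega
        · rw [ee_ne h4] at h3
          omega
    · exact ⟨j, k, s', hs, hj, hk, hxk⟩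

theorem remove' {s t : ℕ} {x y : Z n} (hx : PM G s x) (hy : PM G t y) (hst : t < s) :
    ∃ j k s', s = s' + 1 ∧ y j < x j ∧ y k < x k - ee j k ∧ PM G s' (x - ee j - ee k) := by
  refine remove hx hst (∑ j, max (x j - y j) 0).toNat y hy ?_
  rw [Int.toNat_of_nonneg]
  exact sum_nonneg fun j _ => le_max_right _ _

end Q34.CE
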