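import Pool.Agent.Q34.CE.Key

/-! Generation of the cycle modules. -/

set_option autoImplicit false
open Finset

namespace Q34.CE

open Q34.Poly (bd cone eps bd_add bd_sub bd_bd bd_cone bd_ne)

variable {n : ℕ} {G : SimpleGraph (Fin n)} {K : Type*} [Field K]

theorem bd_smul (a : K) (z : Finset (Fin n) → K) : bd (a • z) = a • bd z := by
  funext G
  simp only [bd, Pi.smul_apply, smul_eq_mul, mul_sum]
  exact sum_congr rfl fun j _ => by ring

theorem bd_zero : bd (0 : Finset (Fin n) → K) = 0 := by
  funext G
  simp [bd]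

theorem bd_sum {ι : Type*} (σ : Finset ι) (Y : ι → Finset (Fin n) → K) :
    bd (∑ m ∈ σ, Y m) = ∑ m ∈ σ, bd (Y m) := by
  classical
  induction σ using Finset.induction_on with
  | empty => simp [bd_zero]
  | insert m σ hm ih => rw [sum_insert hm, sum_insert hm, bd_add, ih]

/-- the cone as a linear map -/
def coneL (p : Fin n) : (Finset (Fin n) → K) →ₗ[K] (Finset (Fin n) → K) where
  toFun := cone p
  map_add' x y := by
    funext F
    simp only [cone, Pi.add_apply]
    split_ifs <;> ring
  map_smul' a x := by
    funext F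
    simp only [cone, Pi.smul_apply, smul_eq_mul, RingHom.id_apply]
    split_ifs <;> ring

theorem coneL_apply (p : Fin n) (x : Finset (Fin n) → K) : coneL p x = cone p x := rfl

/-- the cycles -/
def Zc (K : Type*) [Field K] (G : SimpleGraph (Fin n)) (s i : ℕ) (c : Z n) :
    Submodule K (Finset (Fin n) → K) where
  carrier := {z | bd z = 0 ∧ Sup G s i c z}
  zero_mem' := ⟨bd_zero, fun F hF => absurd rfl hF⟩
  add_mem' := by
    rintro x y ⟨hx, hx'⟩ ⟨hy, hy'⟩
    refine ⟨by rw [bd_add, hx, hy, add_zero], fun F hF => ?_⟩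
    rcases add_ne hF with h | h
    · exact hx' F h
    · exact hy' F h
  smul_mem' := by
    rintro a x ⟨hx, hx'⟩
    refine ⟨by rw [bd_smul, hx, smul_zero], fun F hF => hx' F fun h => hF ?_⟩
    rw [Pi.smul_apply, h, smul_zero]

theorem mem_Zc {s i : ℕ} {c : Z n} {z : Finset (Fin n) → K} :
    z ∈ Zc K G s i c ↔ bd z = 0 ∧ Sup G s i c z := Iff.rfl

/-- the index set of edges below `c` -/
def Eg (G : SimpleGraph (Fin n)) (c : Z n) (p : Fin n × Fin n) : Prop :=
  G.Adj p.1 p.2 ∧ ee p.1 + ee p.2 ≤ c

/-- the span of the cycles one step below -/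
def Uc (K : Type*) [Field K] (G : SimpleGraph (Fin n)) (s i : ℕ) (c : Z n) :
    Submodule K (Finset (Fin n) → K) :=
  ⨆ (p : Fin n × Fin n) (_ : Eg G c p), Zc K G s i (c - ee p.1 - ee p.2)

theorem le_Uc {s i : ℕ} {c : Z n} {a b : Fin n} (hab : G.Adj a b) (hle : ee a + ee b ≤ c) :
    Zc K G s i (c - ee a - ee b) ≤ Uc K G s i c :=
  le_iSup₂_of_le (a, b) ⟨hab, hle⟩ le_rfl

theorem cone_support {p : Fin n} {z : Finset (Fin n) → K} {F : Finset (Fin n)}
    (h : cone p z F ≠ 0) : p ∈ F ∧ z (F.erase p) ≠ 0 := by
  have h1 : p ∈ F := by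
    by_contra hcon
    exact h (if_neg hcon)
  refine ⟨h1, fun h0 => h ?_⟩
  show (if p ∈ F then eps K p (F.erase p) * z (F.erase p) else 0) = 0
  rw [h0, mul_zero, ite_self]

theorem ind_erase {F : Finset (Fin n)} {p : Fin n} (hp : p ∈ F) :
    ind F = ind (F.erase p) + ee p := by
  rw [← ind_insert _ _ (notMem_erase p F), insert_erase hp]

theorem cone_sup {p : Fin n} {z : Finset (Fin n) → K} {s i : ℕ} {c : Z n} (h : Sup G s i c z) :
    Sup G s (i + 1) (c - ee p) (cone p z) := by
  intro F hF
  obtain ⟨h1, h2⟩ := cone_support hF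
  obtain ⟨h3, h4⟩ := h _ h2
  constructor
  · rw [card_erase_of_mem h1] at h3
    have := card_pos.mpr ⟨p, h1⟩
    omega
  · rw [ind_erase h1]
    exact h4.of_eq (by abel)

theorem sup_edge {z : Finset (Fin n) → K} {s i : ℕ} {c : Z n} (h : Sup G s i c z) {a b : Fin n}
    (hab : G.Adj a b) {c' : Z n} (hc : c' = c + ee a + ee b) : Sup G (s + 1) i c' z := by
  intro F hF
  obtain ⟨h1, h2⟩ := h F hF
  exact ⟨h1, h2.edge hab (by rw [hc]; abel)⟩

/-- the difference of two cones -/
theorem cone_diff {l m m₀ : Fin n} (hlm : G.Adj l m) (hlm₀ : G.Adj l m₀) {s i : ℕ} {c : Z n}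
    {w : Finset (Fin n) → K} (hw : w ∈ Uc K G s i c) :
    cone m w - cone m₀ w ∈ Uc K G (s + 1) (i + 1) (c + ee l) := by
  have h1 : Uc K G s i c ≤ (Uc K G (s + 1) (i + 1) (c + ee l)).comap (coneL m - coneL m₀) := by
    refine iSup₂_le ?_
    rintro ⟨a, b⟩ ⟨hab, hle⟩ w ⟨hw1, hw2⟩
    rw [Submodule.mem_comap, LinearMap.sub_apply, coneL_apply, coneL_apply]
    refine le_Uc hab (le_trans hle ?_) ?_
    · intro x
      show c x ≤ c x + ee l x
      have := ee_nonneg l x
      omega
    · refine ⟨?_, ?_⟩
      · rw [bd_sub, bd_cone, bd_cone, hw1]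
        have h0 : ∀ p : Fin n, cone p (0 : Finset (Fin n) → K) = 0 := fun p =>
          (coneL (K := K) p).map_zero
        rw [h0, h0]
        abel
      · intro F hF
        rcases sub_ne hF with h | h
        · exact sup_edge (cone_sup hw2) hlm (by abel) F h
        · exact sup_edge (cone_sup hw2) hlm₀ (by abel) F h
  exact h1 hw

/-- **generation** -/
theorem generation (hG : G.Connected) (i : ℕ) : ∀ (s : ℕ) (c : Z n), i ≤ s → 0 ≤ c →
    ∑ j, c j + i = 2 * (s + 1) → Zc K G (s + 1) i c ≤ Uc K G s i c := by
  classical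
  induction i with
  | zero =>
    rintro s c - hc - z ⟨hz, hz'⟩
    by_cases h0 : z ∅ = 0
    · have : z = 0 := by
        funext F
        by_contra hF
        have h1 := (hz' F hF).1
        rw [card_eq_zero] at h1
        subst h1
        exact hF h0
      rw [this]
      exact Submodule.zero_mem _
    · obtain ⟨-, hP⟩ := hz' ∅ h0
      have he : ind (∅ : Finset (Fin n)) = 0 := by
        funext j
        simp [ind]
      rw [he, add_zero] at hP
      cases hP with
      | @add _ x a b hx hab =>
        refine le_Uc hab ?_ ⟨hz, ?_⟩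
        · intro j
          show ee a j + ee b j ≤ x j + ee a j + ee b j
          have := hx.nonneg j
          omega
        · intro F hF
          have h1 := (hz' F hF).1
          refine ⟨h1, ?_⟩
          rw [card_eq_zero] at h1
          subst h1
          exact hx.of_eq (by rw [he]; abel)
  | succ i ih =>
    rintro s c his hc hsum z ⟨hz, hz'⟩
    obtain ⟨s, rfl⟩ : ∃ s', s = s' + 1 := ⟨s - 1, by omega⟩
    obtain ⟨l, hl⟩ : ∃ l, 1 ≤ c l := by
      by_contra hcon
      push Not at hcon
      have : ∑ j, c j ≤ 0 := sum_nonpos fun j _ => by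
        have := hcon j
        omega
      push_cast at hsum
      omega
    have hc' : 0 ≤ c - ee l := by
      intro x
      show 0 ≤ c x - ee l x
      by_cases hx : x = l
      · subst hx
        rw [ee_self]
        omega
      · rw [ee_ne hx]
        have : 0 ≤ c x := hc x
        omega
    have hsum' : ∑ j, (c - ee l) j + i = 2 * ((s : ℤ) + 1) := by
      rw [sum_sub_ee]
      push_cast at hsum
      omega
    let σ := univ.filter fun m => G.Adj l m
    have hσ : ∀ m ∈ σ, G.Adj l m := fun m hm => (mem_filter.mp hm).2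
    obtain ⟨Y, hY, hYs⟩ := split hG l (s + 1) i (c - ee l) (by push_cast; exact hsum') σ hσ z (by
      intro F hF
      obtain ⟨h1, h2⟩ := hz' F hF
      refine ⟨h1, ?_⟩
      obtain ⟨s', v, hs, hv, hP⟩ := h2.take l (by
        show 1 ≤ c l + ind F l
        have := ind_nonneg F l
        omega)
      obtain rfl : s + 1 = s' := by omega
      exact ⟨v, mem_filter.mpr ⟨mem_univ _, hv⟩, hP.of_eq (by abel)⟩) (by
      rw [hz]
      intro F hF
      exact absurd rfl hF)
    -- the boundaries
    have hω : ∀ m ∈ σ, bd (Y m) ∈ Uc K G s i (c - ee l) := fun m hm =>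
      ih s (c - ee l) (by omega) hc' hsum' ⟨bd_bd _, (hY m hm).2⟩
    have hα : ∀ m ∈ σ, Y m - cone m (bd (Y m)) ∈ Uc K G (s + 1) (i + 1) c := by
      intro m hm
      have hlm := hσ m hm
      have h1 : bd (Y m - cone m (bd (Y m))) = 0 := by
        have h0 : cone m (0 : Finset (Fin n) → K) = 0 := (coneL (K := K) m).map_zero
        rw [bd_sub, bd_cone, bd_bd, h0]
        abel
      have h2 : Sup G (s + 1) (i + 1) (c - ee l - ee m) (Y m - cone m (bd (Y m))) := by
        intro F hF
        rcases sub_ne hF with h | h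
        · exact (hY m hm).1 F h
        · exact cone_sup (hY m hm).2 F h
      by_cases hcm : 1 ≤ c m
      · refine le_Uc hlm ?_ ⟨h1, h2⟩
        intro x
        show ee l x + ee m x ≤ c x
        by_cases hx : x = l
        · subst hx
          rw [ee_self, ee_ne hlm.ne]
          omega
        · rw [ee_ne hx]
          by_cases hx' : x = m
          · subst hx'
            rw [ee_self]
            omega
          · rw [ee_ne hx']
            have : 0 ≤ c x := hc x
            omega
      · -- all faces contain `m`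
        have h3 : ∀ F, (Y m - cone m (bd (Y m))) F ≠ 0 → m ∈ F := by
          intro F hF
          by_contra hmF
          have h4 := (h2 F hF).2.nonneg m
          have h5 : 0 ≤ c m - ee l m - ee m m + ind F m := h4
          rw [ee_self, ee_ne hlm.ne'] at h5
          have h6 : ind F m = 0 := if_neg hmF
          omega
        have h4 : Y m - cone m (bd (Y m)) = 0 := by
          set α := Y m - cone m (bd (Y m)) with hαdef
          funext F
          by_contra hF
          have hmF := h3 F hF
          have h5 : bd α (F.erase m) = eps K m (F.erase m) * α F := by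
            unfold bd
            rw [sum_eq_single m]
            · rw [insert_erase hmF]
            · intro j hj hjm
              rw [mem_sdiff] at hj
              have h6 : α (insert j (F.erase m)) = 0 := by
                by_contra h7
                have := h3 _ h7
                rw [mem_insert] at this
                rcases this with h8 | h8
                · exact hjm h8.symm
                · exact notMem_erase _ _ h8
              rw [h6, mul_zero]
            · intro hm'
              exact absurd (mem_sdiff.mpr ⟨mem_univ _, notMem_erase m F⟩) hm'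
          rw [h1, Pi.zero_apply] at h5
          have h6 : eps K m (F.erase m) ≠ 0 := by
            intro h7
            have := Q34.Poly.eps_sq (K := K) m (F.erase m)
            rw [h7, mul_zero] at this
            exact zero_ne_one this
          rcases mul_eq_zero.mp h5.symm with h7 | h7
          · exact h6 h7
          · exact hF h7
        rw [h4]
        exact Submodule.zero_mem _
    by_cases hσ0 : σ.Nonempty
    · obtain ⟨m₀, hm₀⟩ := hσ0
      have hb0 : ∑ m ∈ σ, bd (Y m) = 0 := by
        rw [← bd_sum, ← hYs, hz]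
      have hdec : z = ∑ m ∈ σ, (Y m - cone m (bd (Y m))) +
          ∑ m ∈ σ, (cone m (bd (Y m)) - cone m₀ (bd (Y m))) := by
        have h1 : ∑ m ∈ σ, cone m₀ (bd (Y m)) = 0 := by
          have h2 : ∑ m ∈ σ, coneL m₀ (bd (Y m)) = coneL (K := K) m₀ (∑ m ∈ σ, bd (Y m)) :=
            (map_sum _ _ _).symm
          rw [hb0, map_zero] at h2
          exact h2
        rw [sum_sub_distrib, sum_sub_distrib, h1, ← hYs]
        abel
      rw [hdec]
      refine Submodule.add_mem _ (Submodule.sum_mem _ hα) (Submodule.sum_mem _ fun m hm => ?_)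
      have h1 := cone_diff (hσ m hm) (hσ m₀ hm₀) (hω m hm)
      rwa [sub_add_cancel] at h1
    · rw [not_nonempty_iff_eq_empty] at hσ0
      rw [hYs, hσ0, sum_empty]
      exact Submodule.zero_mem _

/-- the version for nonvanishing -/
theorem exists_edge (hG : G.Connected) {i s : ℕ} {c : Z n} (his : i ≤ s) (hc : 0 ≤ c)
    (hsum : ∑ j, c j + i = 2 * ((s : ℤ) + 1)) {z : Finset (Fin n) → K}
    (hz : z ∈ Zc K G (s + 1) i c) (hz0 : z ≠ 0) :
    ∃ a b, G.Adj a b ∧ ee a + ee b ≤ c ∧
      ∃ z' ∈ Zc K G s i (c - ee a - ee b), z' ≠ 0 := by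
  by_contra hcon
  push Not at hcon
  have h1 : Uc K G s i c = ⊥ := by
    rw [Uc, iSup₂_eq_bot]
    rintro ⟨a, b⟩ ⟨hab, hle⟩
    rw [Submodule.eq_bot_iff]
    intro z' hz'
    exact hcon a b hab hle z' hz'
  have h2 := generation (K := K) hG i s c his hc hsum hz
  rw [h1, Submodule.mem_bot] at h2
  exact hz0 h2

end Q34.CE
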