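import Pool.Agent.Q34.CE.LQ

/-! The Mayer-Vietoris argument. -/

set_option autoImplicit false
open Finset

namespace Q34.CE

open Q34.Poly (bd cone eps bd_add bd_sub bd_bd bd_cone bd_ne)

variable {n : ℕ} {G : SimpleGraph (Fin n)} {K : Type*} [Field K]

theorem PM.finite (G : SimpleGraph (Fin n)) (s : ℕ) : {x : Z n | PM G s x}.Finite := by
  induction s with
  | zero =>
    refine (Set.finite_singleton (0 : Z n)).subset ?_
    intro x hx
    cases hx
    rfl
  | succ s ih =>
    have h1 : (Set.univ : Set (Fin n × Fin n)).Finite := Set.finite_univ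
    refine ((ih.prod h1).image fun p : Z n × (Fin n × Fin n) => p.1 + ee p.2.1 + ee p.2.2).subset ?_
    intro x hx
    cases hx with
    | @add _ y a b hy hab => exact ⟨(y, (a, b)), ⟨hy, trivial⟩, rfl⟩

theorem sum_add_ind (c : Z n) (F : Finset (Fin n)) : ∑ j, (c + ind F) j = ∑ j, c j + F.card := by
  rw [← sum_ind F, ← sum_add_distrib]; rfl

theorem sum_sub_ee (c : Z n) (m : Fin n) : ∑ j, (c - ee m) j = ∑ j, c j - 1 := by
  rw [← sum_ee m, ← sum_sub_distrib]; rfl

theorem eq_of_le_of_sum {x y : Z n} (h : x ≤ y) (hs : ∑ j, y j ≤ ∑ j, x j) : x = y := by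
  have h1 : ∑ j, x j = ∑ j, y j := le_antisymm (sum_le_sum fun j _ => h j) hs
  funext j
  exact (sum_eq_sum_iff_of_le fun i _ => h i).mp h1 j (mem_univ _)

/-- a common neighbour -/
theorem common {l m m' : Fin n} (hlm : G.Adj l m) (hlm' : G.Adj l m') (hmm : m ≠ m') {r : ℕ}
    {g : Z n} {j j' : Fin n} (h1 : PM G r (g + ee j - ee m)) (h2 : PM G r (g + ee j' - ee m'))
    (hg : ¬ PM G r g) : ∃ k, GG G r m m' (g + ee k) := by
  have hjm : j ≠ m := by
    rintro rfl
    exact hg (h1.of_eq (by abel))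
  have hjm' : j' ≠ m' := by
    rintro rfl
    exact hg (h2.of_eq (by abel))
  rcases exch' h1 h2 m' (by
    show g m' + ee j' m' - ee m' m' < g m' + ee j m' - ee m m'
    rw [ee_self, ee_ne hjm'.symm, ee_ne hmm.symm]
    have := ee_nonneg j m'
    omega) with ⟨k, hk, hx, hy⟩ | ⟨k, r', rfl, hk, hx, -⟩
  · have hk' : g k + ee j k - ee m k < g k + ee j' k - ee m' k := hk
    have e1 := ee_nonneg j k
    have e2 := ee_nonneg m' k
    by_cases h3 : k = m
    · subst h3
      exact ⟨j, h1, hx.of_eq (by abel)⟩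
    · by_cases h4 : k = j'
      · subst h4
        exact absurd (hy.of_eq (by abel)) hg
      · rw [ee_ne h3, ee_ne h4] at hk'
        omega
  · have hk' : g k + ee j' k - ee m' k < g k + ee j k - ee m k - ee m' k := hk
    have e1 := ee_nonneg j' k
    have e2 := ee_nonneg m k
    have h3 : k = j := by
      by_contra hcon
      rw [ee_ne hcon] at hk'
      omega
    subst h3
    exact ⟨l, hx.edge hlm' (by abel), hx.edge hlm (by abel)⟩

/-- support conditions -/
def Sup (G : SimpleGraph (Fin n)) (r i : ℕ) (c : Z n) (z : Finset (Fin n) → K) : Prop :=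
  ∀ F, z F ≠ 0 → F.card = i ∧ PM G r (c + ind F)

theorem add_ne {a b : K} (h : a + b ≠ 0) : a ≠ 0 ∨ b ≠ 0 := by
  by_contra hcon
  push Not at hcon
  rw [hcon.1, hcon.2, add_zero] at h
  exact h rfl

theorem sub_ne {a b : K} (h : a - b ≠ 0) : a ≠ 0 ∨ b ≠ 0 := by
  by_contra hcon
  push Not at hcon
  rw [hcon.1, hcon.2, sub_zero] at h
  exact h rfl

/-- **splitting** -/
theorem split (hG : G.Connected) (l : Fin n) (r i : ℕ) (c : Z n) (hc : ∑ j, c j + i = 2 * r)
    (σ : Finset (Fin n)) : (∀ m ∈ σ, G.Adj l m) → ∀ z : Finset (Fin n) → K,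
    (∀ F, z F ≠ 0 → F.card = i + 1 ∧ ∃ m ∈ σ, PM G r (c - ee m + ind F)) →
    Sup G r i c (bd z) →
    ∃ Y : Fin n → Finset (Fin n) → K, (∀ m ∈ σ, Sup G r (i + 1) (c - ee m) (Y m) ∧
      Sup G r i c (bd (Y m))) ∧ z = ∑ m ∈ σ, Y m := by
  classical
  induction σ using Finset.induction_on with
  | empty =>
    intro _ z hz _
    refine ⟨fun _ => 0, fun m hm => absurd hm (notMem_empty _), ?_⟩
    rw [sum_empty]
    funext F
    by_contra hF
    obtain ⟨-, m, hm, -⟩ := hz F hF
    exact notMem_empty _ hm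
  | insert m σ hmσ ih =>
    intro hadj z hz hbz
    have hlm := hadj m (mem_insert_self _ _)
    have hadj' : ∀ m ∈ σ, G.Adj l m := fun m hm => hadj m (mem_insert_of_mem hm)
    obtain ⟨h, H⟩ := exists_ht hG l
    let z1 : Finset (Fin n) → K := fun F => if PM G r (c - ee m + ind F) then z F else 0
    have hz1 : ∀ F, z1 F ≠ 0 → z F ≠ 0 ∧ PM G r (c - ee m + ind F) := by
      intro F hF
      by_cases h1 : PM G r (c - ee m + ind F)
      · refine ⟨?_, h1⟩
        have : z1 F = z F := if_pos h1
        rwa [this] at hF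
      · exact absurd (if_neg h1) hF
    have hz2 : ∀ F, (z - z1) F ≠ 0 → z F ≠ 0 ∧ ¬ PM G r (c - ee m + ind F) := by
      intro F hF
      by_cases h1 : PM G r (c - ee m + ind F)
      · have : z1 F = z F := if_pos h1
        rw [Pi.sub_apply, this, sub_self] at hF
        exact absurd rfl hF
      · refine ⟨?_, h1⟩
        have : z1 F = 0 := if_neg h1
        rwa [Pi.sub_apply, this, sub_zero] at hF
    have hfin : {b : Z n | ∃ m' ∈ σ, GG G r m m' b}.Finite := by
      refine ((PM.finite G r).image fun x => x + ee m).subset ?_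
      rintro b ⟨m', -, hb⟩
      exact ⟨_, hb.1, by simp⟩
    set C : Finset (Z n) := hfin.toFinset with hC
    have hCm : ∀ b, b ∈ C ↔ ∃ m' ∈ σ, GG G r m m' b := by
      intro b
      rw [hC, Set.Finite.mem_toFinset]; rfl
    have hCs : ∀ b ∈ C, ∑ j, b j = 2 * r + 1 := by
      intro b hb
      obtain ⟨m', -, hb⟩ := (hCm b).mp hb
      have := hb.1.sum
      rw [sum_sub_ee] at this
      omega
    -- the boundary of the first part
    have hy : Ch ({x | PM G r x} ∪ (C : Set (Z n))) c i (bd z1) := by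
      intro G' hG'
      obtain ⟨j, hj, hne⟩ := bd_ne hG'
      obtain ⟨hzj, hPj⟩ := hz1 _ hne
      have hcard : G'.card = i := by
        have := (hz _ hzj).1
        rw [card_insert_of_notMem hj] at this
        omega
      refine ⟨hcard, ?_⟩
      by_cases hg : PM G r (c + ind G')
      · exact ⟨_, Or.inl hg, le_rfl⟩
      · have h0 : bd z G' = 0 := by
          by_contra hcon
          exact hg (hbz G' hcon).2
        have h1 : bd (z - z1) G' ≠ 0 := by
          rw [bd_sub, Pi.sub_apply, h0, zero_sub]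
          exact neg_ne_zero.mpr hG'
        obtain ⟨j', hj', hne'⟩ := bd_ne h1
        obtain ⟨hzj', hPj'⟩ := hz2 _ hne'
        obtain ⟨-, m', hm', hP'⟩ := hz _ hzj'
        rcases mem_insert.mp hm' with rfl | hm'
        · exact absurd hP' hPj'
        · have hmm : m ≠ m' := by rintro rfl; exact hmσ hm'
          rw [ind_insert _ _ hj] at hPj
          rw [ind_insert _ _ hj'] at hP'
          obtain ⟨k, hk⟩ := common hlm (hadj' m' hm') hmm (g := c + ind G') (j := j) (j' := j')
            (hPj.of_eq (by abel)) (hP'.of_eq (by abel)) hg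
          refine ⟨c + ind G' + ee k, Or.inr (mem_coe.mpr ((hCm _).mpr ⟨m', hm', hk⟩)), ?_⟩
          intro x
          show c x + ind G' x ≤ c x + ind G' x + ee k x
          have := ee_nonneg k x
          omega
    obtain ⟨w, hw, hbw⟩ := relAcyclic (K := K) (key h) (key_inj h) {x | PM G r x} C (by
      intro u hu v hv
      obtain ⟨m', hm', hGu⟩ := (hCm u).mp hu
      have hmm : m ≠ m' := by rintro rfl; exact hmσ hm'
      obtain ⟨q, hq, hgood⟩ := lqG H hlm (hadj' m' hm') hmm hGu (v := v) (by
        rcases hv with hv | ⟨hv, hlt⟩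
        · exact Or.inl hv
        · obtain ⟨m'', -, hGv⟩ := (hCm v).mp hv
          exact Or.inr ⟨hGv.1, hlt⟩)
      refine ⟨q, hq, ?_⟩
      rcases hgood with hg | ⟨k, hk, hg⟩
      · exact ⟨_, Or.inl hg, le_rfl⟩
      · exact ⟨_, Or.inr ⟨(hCm _).mpr ⟨m', hm', hg⟩, key_exch H.inj u hk⟩, sub_ee_le u q k⟩)
      i c (bd z1) hy (by
        intro G' hG'
        rw [bd_bd] at hG'
        exact absurd rfl hG') (by
        rintro ⟨u, hu, F, hF, hcF, -⟩
        have h1 := hCs u hu
        rw [← hcF, sum_add_ind, hF] at h1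
        omega)
    -- the support of `w`
    have hw' : ∀ F, w F ≠ 0 → F.card = i + 1 ∧ ∃ m' ∈ σ, GG G r m m' (c + ind F) := by
      intro F hF
      obtain ⟨h1, d, hd, hle⟩ := hw F hF
      refine ⟨h1, ?_⟩
      have h2 : ∑ j, (c + ind F) j = 2 * r + 1 := by
        rw [sum_add_ind, h1]
        push_cast
        omega
      rcases hd with hd | hd
      · exfalso
        have h3 : ∑ j, d j = 2 * r := PM.sum hd
        have h4 : ∑ j, (c + ind F) j ≤ ∑ j, d j := sum_le_sum fun j _ => hle j
        omega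
      · have h3 := hCs d (mem_coe.mp hd)
        have h4 := eq_of_le_of_sum hle (by rw [h2, h3])
        rw [h4]
        exact (hCm d).mp (mem_coe.mp hd)
    have hbw' : Sup G r i c (bd z1 - bd w) := by
      intro G' hG'
      obtain ⟨h1, d, hd, hle⟩ := hbw G' hG'
      refine ⟨h1, ?_⟩
      have h3 : ∑ j, d j = 2 * r := PM.sum hd
      have h4 := eq_of_le_of_sum hle (by rw [h3, sum_add_ind, h1]; omega)
      rw [h4]
      exact hd
    obtain ⟨Y, hY, hYs⟩ := ih hadj' (z - z1 + w) (by
      intro F hF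
      rcases add_ne hF with h1 | h1
      · obtain ⟨h2, h3⟩ := hz2 F h1
        obtain ⟨h4, m', hm', h5⟩ := hz F h2
        refine ⟨h4, ?_⟩
        rcases mem_insert.mp hm' with rfl | hm'
        · exact absurd h5 h3
        · exact ⟨m', hm', h5⟩
      · obtain ⟨h2, m', hm', h3⟩ := hw' F h1
        exact ⟨h2, m', hm', h3.2.of_eq (by abel)⟩) (by
      have h1 : bd (z - z1 + w) = bd z - (bd z1 - bd w) := by
        rw [bd_add, bd_sub]; abel
      rw [h1]
      intro F hF
      rcases sub_ne hF with h2 | h2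
      · exact hbz F h2
      · exact hbw' F h2)
    refine ⟨fun x => if x = m then z1 - w else Y x, ?_, ?_⟩
    · intro x hx
      beta_reduce
      by_cases hxm : x = m
      · subst hxm
        rw [if_pos rfl]
        refine ⟨?_, ?_⟩
        · intro F hF
          rcases sub_ne hF with h1 | h1
          · obtain ⟨h2, h3⟩ := hz1 F h1
            exact ⟨(hz F h2).1, h3⟩
          · obtain ⟨h2, m', hm', h3⟩ := hw' F h1
            exact ⟨h2, h3.1.of_eq (by abel)⟩
        · rw [bd_sub]
          exact hbw'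
      · rw [if_neg hxm]
        rcases mem_insert.mp hx with hx | hx
        · exact absurd hx hxm
        · exact hY x hx
    · rw [sum_insert hmσ]
      rw [if_pos rfl]
      have h1 : ∑ x ∈ σ, (if x = m then z1 - w else Y x) = ∑ x ∈ σ, Y x := by
        refine sum_congr rfl fun x hx => ?_
        rw [if_neg]
        rintro rfl
        exact hmσ hx
      rw [h1, ← hYs]
      abel

end Q34.CE
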