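import Pool.Agent.Q34.CE.Exch

/-! Linear quotients. -/

set_option autoImplicit false
open Finset

namespace Q34.CE

variable {n : ℕ} {G : SimpleGraph (Fin n)}

/-- a height function with top vertex `l` -/
structure Ht (G : SimpleGraph (Fin n)) (l : Fin n) (h : Fin n → ℕ) : Prop where
  inj : Function.Injective h
  up : ∀ v, v ≠ l → ∃ w, G.Adj v w ∧ h v < h w

theorem exists_ht (hG : G.Connected) (l : Fin n) : ∃ h, Ht G l h := by
  let N := ∑ v, G.dist v l
  have hN : ∀ v, G.dist v l ≤ N := fun v =>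
    single_le_sum (f := fun v => G.dist v l) (fun _ _ => Nat.zero_le _) (mem_univ v)
  refine ⟨fun v => (N - G.dist v l) * n + v, ?_, ?_⟩
  · intro v w h
    have h' : (N - G.dist v l) * n + v = (N - G.dist w l) * n + w := h
    have hv := v.2
    have hw := w.2
    have h1 : ((N - G.dist v l) * n + v) % n = v := by
      rw [Nat.mul_add_mod', Nat.mod_eq_of_lt hv]
    have h2 : ((N - G.dist w l) * n + w) % n = w := by
      rw [Nat.mul_add_mod', Nat.mod_eq_of_lt hw]
    rw [h', h2] at h1
    exact Fin.ext h1.symm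
  · intro v hv
    obtain ⟨p, hp⟩ := hG.exists_walk_length_eq_dist v l
    cases p with
    | nil => exact absurd rfl hv
    | @cons _ w _ hvw p =>
      refine ⟨w, hvw, ?_⟩
      have h1 : G.dist w l ≤ p.length := SimpleGraph.dist_le p
      rw [SimpleGraph.Walk.length_cons] at hp
      have h2 := hN v
      have h3 : N - G.dist v l + 1 ≤ N - G.dist w l := by omega
      have h4 : (N - G.dist v l + 1) * n ≤ (N - G.dist w l) * n := Nat.mul_le_mul_right _ h3
      have h5 := v.2
      show (N - G.dist v l) * n + v < (N - G.dist w l) * n + w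
      rw [add_mul, one_mul] at h4
      omega

variable {l : Fin n} {h : Fin n → ℕ}

theorem Ht.near (H : Ht G l h) (N : ℕ) : ∀ v, v ≠ l → (∑ w, h w) - h v ≤ N →
    h v < h l ∧ ∃ w, w ≠ l ∧ G.Adj l w ∧ h v ≤ h w := by
  induction N with
  | zero =>
    intro v hv hN
    obtain ⟨w, hvw, hlt⟩ := H.up v hv
    have := single_le_sum (f := h) (fun _ _ => Nat.zero_le _) (mem_univ w)
    omega
  | succ N ih =>
    intro v hv hN
    obtain ⟨w, hvw, hlt⟩ := H.up v hv
    by_cases hw : w = l
    · subst hw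
      exact ⟨hlt, v, hv, hvw.symm, le_rfl⟩
    · have := single_le_sum (f := h) (fun _ _ => Nat.zero_le _) (mem_univ w)
      obtain ⟨h1, w', h2, h3, h4⟩ := ih w hw (by omega)
      exact ⟨by omega, w', h2, h3, by omega⟩

theorem Ht.lt (H : Ht G l h) {v : Fin n} (hv : v ≠ l) : h v < h l := (H.near _ v hv le_rfl).1

theorem Ht.nbr (H : Ht G l h) {v : Fin n} (hv : v ≠ l) : ∃ w, G.Adj l w ∧ h v ≤ h w := by
  obtain ⟨-, w, -, h1, h2⟩ := H.near _ v hv le_rfl
  exact ⟨w, h1, h2⟩

/-- the key -/
def key (h : Fin n → ℕ) (x : Z n) : Lex (Fin n → ℤ) := toLex fun k => x (Tuple.sort h k)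

theorem key_inj (h : Fin n → ℕ) : Function.Injective (key h) := by
  intro x y hxy
  have h1 : (fun k => x (Tuple.sort h k)) = fun k => y (Tuple.sort h k) := toLex.injective hxy
  funext j
  have := congrFun h1 ((Tuple.sort h).symm j)
  simpa using this

theorem sort_lt (hinj : Function.Injective h) {i j : Fin n} :
    h (Tuple.sort h i) < h (Tuple.sort h j) ↔ i < j := by
  have h1 : StrictMono (h ∘ Tuple.sort h) :=
    (Tuple.monotone_sort h).strictMono_of_injective (hinj.comp (Tuple.sort h).injective)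
  exact h1.lt_iff_lt

theorem key_lt (hinj : Function.Injective h) (x y : Z n) :
    key h x < key h y ↔ ∃ p, (∀ j, h j < h p → x j = y j) ∧ x p < y p := by
  have h0 : key h x < key h y ↔ ∃ i, (∀ j, j < i → x (Tuple.sort h j) = y (Tuple.sort h j)) ∧
    x (Tuple.sort h i) < y (Tuple.sort h i) := Iff.rfl
  rw [h0]
  constructor
  · rintro ⟨i, h1, h2⟩
    refine ⟨Tuple.sort h i, fun j hj => ?_, h2⟩
    have h3 := h1 ((Tuple.sort h).symm j) (by
      rw [← sort_lt hinj, Equiv.apply_symm_apply]; exact hj)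
    rwa [Equiv.apply_symm_apply] at h3
  · rintro ⟨p, h1, h2⟩
    refine ⟨(Tuple.sort h).symm p, fun j hj => ?_, ?_⟩
    · apply h1
      have := (sort_lt hinj).mpr hj
      rwa [Equiv.apply_symm_apply] at this
    · rwa [Equiv.apply_symm_apply]

theorem key_exch (hinj : Function.Injective h) (x : Z n) {q k : Fin n} (hqk : h q < h k) :
    key h (x - ee q + ee k) < key h x := by
  rw [key_lt hinj]
  refine ⟨q, fun j hj => ?_, ?_⟩
  · show x j - ee q j + ee k j = x j
    have h1 : j ≠ q := by rintro rfl; omega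
    have h2 : j ≠ k := by rintro rfl; omega
    rw [ee_ne h1, ee_ne h2]
    omega
  · show x q - ee q q + ee k q < x q
    have h2 : q ≠ k := by rintro rfl; omega
    rw [ee_self, ee_ne h2]
    omega

theorem sub_ee_le (x : Z n) (q k : Fin n) : x - ee q ≤ x - ee q + ee k := by
  intro j
  show x j - ee q j ≤ x j - ee q j + ee k j
  have := ee_nonneg k j
  omega

/-- a later neighbour -/
theorem Ht.later (H : Ht G l h) {x y : Z n} (hs : ∑ j, x j = ∑ j, y j) {p k : Fin n}
    (h1 : ∀ j, h j < h p → y j = x j) (h2 : y p < x p) (hk : y k < x k - ee p k) :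
    ∃ w, G.Adj k w ∧ h p < h w := by
  have h3 := ee_nonneg p k
  have hpk : h p ≤ h k := by
    by_contra hcon
    have := h1 k (by omega)
    omega
  by_cases hkl : k = l
  · subst hkl
    obtain ⟨v, hv⟩ : ∃ v, x v < y v := by
      by_contra hcon
      push Not at hcon
      have : ∑ j, y j < ∑ j, x j := sum_lt_sum (fun i _ => hcon i) ⟨p, mem_univ _, h2⟩
      omega
    have hvk : v ≠ k := by rintro rfl; omega
    have hpv : h p < h v := by
      rcases lt_trichotomy (h p) (h v) with h4 | h4 | h4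
      · exact h4
      · have := H.inj h4
        subst this
        omega
      · have := h1 v h4
        omega
    obtain ⟨w, hw1, hw2⟩ := H.nbr hvk
    exact ⟨w, hw1, by omega⟩
  · obtain ⟨w, hw1, hw2⟩ := H.up k hkl
    exact ⟨w, hw1, by omega⟩

/-- `k` comes after `p` -/
theorem Ht.after (H : Ht G l h) {x y : Z n} {p k : Fin n}
    (h1 : ∀ j, h j < h p → y j = x j) (h2 : y p < x p) (hk : x k < y k) : h p < h k := by
  rcases lt_trichotomy (h p) (h k) with h4 | h4 | h4
  · exact h4
  · have := H.inj h4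
    subst this
    omega
  · have := h1 k h4
    omega

/-- **linear quotients** for the powers -/
theorem lqD (H : Ht G l h) {s : ℕ} {u v : Z n} (hu : PM G s u) (hv : PM G s v)
    (hlt : key h v < key h u) :
    ∃ q, v q < u q ∧ ∃ w, PM G s w ∧ key h w < key h u ∧ u - ee q ≤ w := by
  obtain ⟨p, h1, h2⟩ := (key_lt H.inj v u).mp hlt
  refine ⟨p, h2, ?_⟩
  have hs : ∑ j, u j = ∑ j, v j := by rw [hu.sum, hv.sum]
  obtain ⟨k, hk, hw⟩ : ∃ k, h p < h k ∧ PM G s (u - ee p + ee k) := by
    rcases exch' hu hv p h2 with ⟨k, hk, hw, -⟩ | ⟨k, s', rfl, hk, hw, -⟩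
    · exact ⟨k, H.after h1 h2 hk, hw⟩
    · obtain ⟨w, hkw, hpw⟩ := H.later hs h1 h2 hk
      exact ⟨w, hpw, hw.edge hkw (by abel)⟩
  exact ⟨_, hw, key_exch H.inj u hk, sub_ee_le u p k⟩

/-- the near perfect vectors -/
def GG (G : SimpleGraph (Fin n)) (r : ℕ) (m m' : Fin n) (b : Z n) : Prop :=
  PM G r (b - ee m) ∧ PM G r (b - ee m')

theorem good_of_exch (H : Ht G l h) {r : ℕ} {m m' : Fin n} (hlm : G.Adj l m) (hlm' : G.Adj l m')
    (hmm : m ≠ m') {b : Z n} (hb : GG G r m m' b) {q k : Fin n} (hqk : h q < h k)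
    (hx : PM G r (b - ee q + ee k - ee m)) :
    PM G r (b - ee q) ∨ ∃ k', h q < h k' ∧ GG G r m m' (b - ee q + ee k') := by
  by_cases hbq : PM G r (b - ee q)
  · exact Or.inl hbq
  right
  have hqm' : q ≠ m' := by rintro rfl; exact hbq hb.2
  have hqm : q ≠ m := by rintro rfl; exact hbq hb.1
  have hkq : k ≠ q := by rintro rfl; omega
  have hkm : k ≠ m := by
    rintro rfl
    exact hbq (hx.of_eq (by abel))
  have hql : q ≠ l := by
    rintro rfl
    have := H.lt hkq
    omega
  rcases exch' hx hb.2 m' (by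
    show b m' - ee m' m' < b m' - ee q m' + ee k m' - ee m m'
    rw [ee_self, ee_ne hqm'.symm, ee_ne hmm.symm]
    have := ee_nonneg k m'
    omega) with ⟨k₁, hk, h1, h2⟩ | ⟨k₁, r', rfl, hk, h1, -⟩
  · have hk' : b k₁ - ee q k₁ + ee k k₁ - ee m k₁ < b k₁ - ee m' k₁ := hk
    have e1 := ee_nonneg k k₁
    have e2 := ee_nonneg m' k₁
    by_cases h3 : k₁ = m
    · subst h3
      exact ⟨k, hqk, hx, h1.of_eq (by abel)⟩
    · by_cases h4 : k₁ = q
      · subst h4
        exact absurd (h2.of_eq (by abel)) hbq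
      · rw [ee_ne h3, ee_ne h4] at hk'
        omega
  · have hk' : b k₁ - ee m' k₁ < b k₁ - ee q k₁ + ee k k₁ - ee m k₁ - ee m' k₁ := hk
    have e1 := ee_nonneg q k₁
    have e2 := ee_nonneg m k₁
    have h3 : k₁ = k := by
      by_contra hcon
      rw [ee_ne hcon] at hk'
      omega
    subst h3
    refine ⟨l, H.lt hql, ?_, ?_⟩
    · exact h1.edge hlm' (by abel)
    · exact h1.edge hlm (by abel)

/-- **relative linear quotients** -/
theorem lqG (H : Ht G l h) {r : ℕ} {m m' : Fin n} (hlm : G.Adj l m) (hlm' : G.Adj l m')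
    (hmm : m ≠ m') {b v : Z n} (hb : GG G r m m' b)
    (hv : PM G r v ∨ (PM G r (v - ee m) ∧ key h v < key h b)) :
    ∃ q, v q < b q ∧
      (PM G r (b - ee q) ∨ ∃ k', h q < h k' ∧ GG G r m m' (b - ee q + ee k')) := by
  rcases hv with hv | ⟨hv, hlt⟩
  · -- against a vector of the base
    have hx : PM G (r + 1) (b + ee l) := hb.1.edge hlm (by abel)
    obtain ⟨j, k, r', hr, hj, hk, hjk⟩ := remove' hx hv (Nat.lt_succ_self r)
    obtain rfl : r = r' := by omega
    have hj' : v j < b j + ee l j := hj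
    have hk' : v k < b k + ee l k - ee j k := hk
    by_cases hjl : j = l
    · subst hjl
      refine ⟨k, ?_, Or.inl (hjk.of_eq (by abel))⟩
      omega
    rw [ee_ne hjl] at hj'
    by_cases hkl : k = l
    · subst hkl
      exact ⟨j, by omega, Or.inl (hjk.of_eq (by abel))⟩
    rw [ee_ne hkl] at hk'
    -- symmetric part
    have main : ∀ j k : Fin n, j ≠ l → k ≠ l → v j < b j → v k < b k → h j ≤ h k →
        PM G r (b + ee l - ee j - ee k) → ∃ q, v q < b q ∧
        (PM G r (b - ee q) ∨ ∃ k', h q < h k' ∧ GG G r m m' (b - ee q + ee k')) := by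
      intro j k hjl hkl hj hk hjk hjk'
      by_cases hbj : PM G r (b - ee j)
      · exact ⟨j, hj, Or.inl hbj⟩
      by_cases hbk : PM G r (b - ee k)
      · exact ⟨k, hk, Or.inl hbk⟩
      have hjm : j ≠ m := by rintro rfl; exact hbj hb.1
      have hkm : k ≠ m := by rintro rfl; exact hbk hb.1
      refine ⟨j, hj, ?_⟩
      rcases exch' hb.1 hjk' j (by
        show b j + ee l j - ee j j - ee k j < b j - ee m j
        rw [ee_ne hjl, ee_self, ee_ne hjm]
        have := ee_nonneg k j
        omega) with ⟨k₁, hk₁, h1, -⟩ | ⟨k₁, r', rfl, hk₁, h1, -⟩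
      · have hk₁' : b k₁ - ee m k₁ < b k₁ + ee l k₁ - ee j k₁ - ee k k₁ := hk₁
        have e1 := ee_nonneg j k₁
        have e2 := ee_nonneg k k₁
        by_cases h3 : k₁ = m
        · subst h3
          exact absurd (h1.of_eq (by abel)) hbj
        · have h4 : k₁ = l := by
            by_contra hcon
            rw [ee_ne h3, ee_ne hcon] at hk₁'
            omega
          subst h4
          exact good_of_exch H hlm hlm' hmm hb (H.lt hjl) (h1.of_eq (by abel))
      · have hk₁' : b k₁ + ee l k₁ - ee j k₁ - ee k k₁ < b k₁ - ee m k₁ - ee j k₁ := hk₁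
        have e1 := ee_nonneg l k₁
        have e2 := ee_nonneg m k₁
        have h4 : k₁ = k := by
          by_contra hcon
          rw [ee_ne hcon] at hk₁'
          omega
        subst h4
        obtain ⟨w, hw1, hw2⟩ := H.up k₁ hkl
        exact good_of_exch H hlm hlm' hmm hb (q := j) (k := w) (by omega)
          (h1.edge hw1 (by abel))
    have hkb : v k < b k := by
      have := ee_nonneg j k
      omega
    rcases le_total (h j) (h k) with hle | hle
    · exact main j k hjl hkl (by omega) hkb hle hjk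
    · exact main k j hkl hjl hkb (by omega) hle (hjk.of_eq (by abel))
  · obtain ⟨p, h1, h2⟩ := (key_lt H.inj v b).mp hlt
    refine ⟨p, h2, ?_⟩
    have hs : ∑ j, (b - ee m) j = ∑ j, (v - ee m) j := by rw [hb.1.sum, hv.sum]
    have h1' : ∀ j, h j < h p → (v - ee m) j = (b - ee m) j := by
      intro j hj
      show v j - ee m j = b j - ee m j
      rw [h1 j hj]
    have h2' : (v - ee m) p < (b - ee m) p := by
      show v p - ee m p < b p - ee m p
      omega
    rcases exch' hb.1 hv p h2' with ⟨k, hk, hw, -⟩ | ⟨k, s', rfl, hk, hw, -⟩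
    · exact good_of_exch H hlm hlm' hmm hb (H.after h1' h2' hk) (hw.of_eq (by abel))
    · obtain ⟨w, hkw, hpw⟩ := H.later hs h1' h2' hk
      exact good_of_exch H hlm hlm' hmm hb hpw (hw.edge hkw (by abel))

end Q34.CE
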